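import Pool.Agent.H683.CV.PLem

/-!
# The iterated step is computed in polynomial time
-/

set_option autoImplicit false

namespace Pool.Agent.H294.CV

open Pool.Agent.NPC Pool.Agent.H633R2 Pool.Agent.H683.CV

theorem raise_getD_le (cl : List ℕ) (p : ℕ) (y : List ℕ) (j X : ℕ) (h : ∀ i, y.getD i 0 ≤ X) (i : ℕ) :
    (raise cl p y j).getD i 0 ≤ X + 1 := by
  unfold raise
  rw [List.getD_eq_getElem?_getD, List.getElem?_map]
  rcases h1 : (List.range p)[i]? with _ | m
  · simp
  · have h2 := h m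
    simp only [Option.map_some, Option.getD_some]
    split_ifs <;> omega

theorem inv (M : List (List Bool)) (B S : List ℕ) (Z : List (ℕ × ℕ)) (cl : List ℕ) (p : ℕ)
    (w : List Unit) (x : List ℕ) (X : ℕ) (hX : ∀ i, x.getD i 0 ≤ X) (k : ℕ) :
    (∀ i, ((stp M B S Z cl p w)^[k] x).getD i 0 ≤ X + k) ∧
      ((stp M B S Z cl p w)^[k] x = x ∨ ((stp M B S Z cl p w)^[k] x).length = p) := by
  induction k with
  | zero => exact ⟨fun i => hX i, Or.inl rfl⟩
  | succ k ih =>
    rw [Function.iterate_succ_apply']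
    generalize (stp M B S Z cl p w)^[k] x = y at ih
    obtain ⟨h1, h2⟩ := ih
    unfold stp
    cases nxt M B S Z cl p w y with
    | none => exact ⟨fun i => (h1 i).trans (Nat.le_succ _), h2⟩
    | some j =>
      refine ⟨fun i => raise_getD_le cl p y j _ h1 i, Or.inr ?_⟩
      simp [raise]

theorem getD_le (x : List ℕ) (i : ℕ) : x.getD i 0 ≤ 2 ^ sz x := by
  rw [List.getD_eq_getElem?_getD]
  rcases h : x[i]? with _ | e
  · simp
  · have hm : e ∈ x := List.mem_of_getElem? h
    have h1 := sz_le_of_mem hm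
    have h2 := size_le_sz e
    have h3 : e < 2 ^ e.size := Nat.lt_size_self e
    have h4 : 2 ^ e.size ≤ 2 ^ sz x := Nat.pow_le_pow_right (by norm_num) (by omega)
    simp only [Option.getD_some]
    omega

theorem sz_bound (x y : List ℕ) (p k : ℕ) (h1 : ∀ i, y.getD i 0 ≤ 2 ^ sz x + k)
    (h2 : y = x ∨ y.length = p) : sz y ≤ sz x + (p * (4 * (sz x + k + 1) + 2) + 1) := by
  rcases h2 with rfl | h2
  · omega
  · have h3 := sz_le_length_mul y (4 * (sz x + k + 1) + 1) (by
      intro e he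
      obtain ⟨i, hi, rfl⟩ := List.getElem_of_mem he
      have h4 : y[i] ≤ 2 ^ sz x + k := by
        have := h1 i
        rwa [List.getD_eq_getElem?_getD, List.getElem?_eq_getElem hi, Option.getD_some] at this
      have h5 : k < 2 ^ k := Nat.lt_two_pow_self
      have h6 : 1 ≤ 2 ^ sz x := Nat.one_le_two_pow
      have h7 : 2 ^ (sz x + k + 1) = 2 ^ sz x * 2 ^ k * 2 := by rw [pow_succ, pow_add]
      have h8 : y[i] < 2 ^ (sz x + k + 1) := by
        rw [h7]
        nlinarith
      have h9 : y[i].size ≤ sz x + k + 1 := Nat.size_le.2 h8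
      have h10 := sz_nat_le y[i]
      omega)
    rw [h2] at h3
    have h11 : p * (4 * (sz x + k + 1) + 1 + 1) = p * (4 * (sz x + k + 1) + 2) := by ring
    omega

theorem PRUN (h : S_PSTP) : S_PRUN := by
  intro α _ M B S Z cl p w x hM hB hS hZ hcl hp hw hx
  obtain ⟨rx, hrx⟩ := hx.sz_le
  obtain ⟨rM, hrM⟩ := hM.sz_le
  obtain ⟨rp, hrp⟩ := hp.sz_le
  have hn : UPoly (fun a => (M a).length * (M a).length + 1) :=
    UPoly.add (UPoly.mul (UPoly.length hM) (UPoly.length hM)) (UPoly.const 1)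
  have h1 : Poly (fun a : α × List ℕ => stp (M a.1) (B a.1) (S a.1) (Z a.1) (cl a.1) (p a.1) (w a.1) a.2) :=
    h (α × List ℕ) (fun a => M a.1) (fun a => B a.1) (fun a => S a.1) (fun a => Z a.1)
      (fun a => cl a.1) (fun a => p a.1) (fun a => w a.1) (fun a => a.2)
      (hM.comp (Poly.fst Poly.id)) (hB.comp (Poly.fst Poly.id)) (hS.comp (Poly.fst Poly.id))
      (hZ.comp (Poly.fst Poly.id)) (hcl.comp (Poly.fst Poly.id)) (hp.comp (Poly.fst Poly.id))
      (hw.comp (Poly.fst Poly.id)) (Poly.snd Poly.id)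
  refine (Poly.iterLen (l := fun a => List.replicate ((M a).length * (M a).length + 1) ())
    (s := x) (F := fun a y => stp (M a) (B a) (S a) (Z a) (cl a) (p a) (w a) y) hn hx h1
    (rx + (rp * (Polynomial.C 4 * (rx + (rM * rM + 1) + 1) + 2) + 1)) ?_).congr fun a => by
      rw [List.length_replicate]
  intro a k hk
  rw [List.length_replicate] at hk
  obtain ⟨i1, i2⟩ := inv (M a) (B a) (S a) (Z a) (cl a) (p a) (w a) (x a) (2 ^ sz (x a))
    (getD_le (x a)) k
  refine (sz_bound (x a) _ (p a) k i1 i2).trans ?_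
  have e1 := hrx a
  have e2 : (M a).length ≤ rM.eval (sz a) := (length_lt_sz (M a)).le.trans (hrM a)
  have e3 : p a ≤ rp.eval (sz a) := by
    have := hrp a
    rw [sz_replicate_unit] at this
    omega
  have e4 : k ≤ rM.eval (sz a) * rM.eval (sz a) + 1 := hk.trans (Nat.add_le_add_right (Nat.mul_le_mul e2 e2) 1)
  simp only [Polynomial.eval_add, Polynomial.eval_mul, Polynomial.eval_C, Polynomial.eval_one,
    Polynomial.eval_ofNat]
  have e5 : p a * (4 * (sz (x a) + k + 1) + 2) ≤ rp.eval (sz a) *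
      (4 * (rx.eval (sz a) + (rM.eval (sz a) * rM.eval (sz a) + 1) + 1) + 2) :=
    Nat.mul_le_mul e3 (by omega)
  omega

end Pool.Agent.H294.CV
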