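import Pool.Agent.H426.Noc.Defs
import Pool.Agent.H426.Two.PCol

/-!
Nochka project (helper426), part N5, by helper294: weights of forms.
-/

set_option autoImplicit false

namespace Pool.Agent.H294.Noc5

open MvPolynomial Finset Module
open Pool.Agent.H426.Ru (HG)
open Pool.Agent.H426.Noc (Wt)

/-- N5. Weights are multiplicative. -/
theorem Wt_mul {K : Type} [Field K] {q : ℕ} {I : Ideal (MvPolynomial (Fin q) K)}
    {a : Fin q → ℝ} {M M' : ℕ} {lam lam' : ℝ} {f f' : MvPolynomial (Fin q) K}
    (h : Wt I a M lam f) (h' : Wt I a M' lam' f') : Wt I a (M + M') (lam + lam') (f * f') := by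
  unfold Wt at h h' ⊢
  obtain ⟨s, hs, i, hi, rfl⟩ := Submodule.mem_sup.1 h
  obtain ⟨s', hs', i', hi', rfl⟩ := Submodule.mem_sup.1 h'
  have hi0 : i ∈ I := hi
  have hi0' : i' ∈ I := hi'
  refine Submodule.mem_sup.2 ⟨s * s', ?_, s * i' + i * s' + i * i', ?_, by ring⟩
  · have h1 := Submodule.mul_mem_mul hs hs'
    rw [Submodule.span_mul_span] at h1
    refine Submodule.span_mono ?_ h1
    rintro _ ⟨x, ⟨α, e, g, hg, hM, hlam, rfl⟩, y, ⟨β, e', g', hg', hM', hlam', rfl⟩, rfl⟩
    refine ⟨fun j => α j + β j, e + e', g * g', hg.mul hg', ?_, ?_, ?_⟩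
    · rw [Finset.sum_add_distrib]
      omega
    · have e1 : ∑ j, ((α j + β j : ℕ) : ℝ) * a j = ∑ j, (α j : ℝ) * a j + ∑ j, (β j : ℝ) * a j := by
        rw [← Finset.sum_add_distrib]
        refine Finset.sum_congr rfl fun j _ => ?_
        push_cast
        ring
      rw [e1]
      exact add_le_add hlam hlam'
    · show (∏ j, X j ^ α j) * g * ((∏ j, X j ^ β j) * g') = (∏ j, X j ^ (α j + β j)) * (g * g')
      have e1 : ∏ j : Fin q, (X j : MvPolynomial (Fin q) K) ^ (α j + β j) =
          (∏ j, X j ^ α j) * ∏ j, X j ^ β j := by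
        rw [← Finset.prod_mul_distrib]
        exact Finset.prod_congr rfl fun j _ => pow_add _ _ _
      rw [e1]
      ring
  · show s * i' + i * s' + i * i' ∈ I
    exact I.add_mem (I.add_mem (I.mul_mem_left _ hi0') (I.mul_mem_right _ hi0))
      (I.mul_mem_left _ hi0')

theorem Wt_mono {K : Type} [Field K] {q : ℕ} {I : Ideal (MvPolynomial (Fin q) K)}
    {a : Fin q → ℝ} {M : ℕ} {lam lam' : ℝ} {f : MvPolynomial (Fin q) K} (hl : lam' ≤ lam)
    (h : Wt I a M lam f) : Wt I a M lam' f := by
  unfold Wt at h ⊢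
  obtain ⟨s, hs, i, hi, rfl⟩ := Submodule.mem_sup.1 h
  refine Submodule.mem_sup.2 ⟨s, Submodule.span_mono ?_ hs, i, hi, rfl⟩
  rintro p ⟨α, e, g, hg, hM, hlam, rfl⟩
  exact ⟨α, e, g, hg, hM, hl.trans hlam, rfl⟩

theorem Wt_add {K : Type} [Field K] {q : ℕ} {I : Ideal (MvPolynomial (Fin q) K)}
    {a : Fin q → ℝ} {M : ℕ} {lam : ℝ} {f f' : MvPolynomial (Fin q) K}
    (h : Wt I a M lam f) (h' : Wt I a M lam f') : Wt I a M lam (f + f') :=
  Submodule.add_mem _ h h'

theorem Wt_zero {K : Type} [Field K] {q : ℕ} {I : Ideal (MvPolynomial (Fin q) K)}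
    {a : Fin q → ℝ} {M : ℕ} {lam : ℝ} : Wt I a M lam (0 : MvPolynomial (Fin q) K) :=
  Submodule.zero_mem _

theorem Wt_mem {K : Type} [Field K] {q : ℕ} {I : Ideal (MvPolynomial (Fin q) K)}
    {a : Fin q → ℝ} {M : ℕ} {lam : ℝ} {f : MvPolynomial (Fin q) K} (h : f ∈ I) :
    Wt I a M lam f := by
  unfold Wt
  exact Submodule.mem_sup.2 ⟨0, Submodule.zero_mem _, f, h, zero_add f⟩

theorem Wt_X {K : Type} [Field K] {q : ℕ} {I : Ideal (MvPolynomial (Fin q) K)}
    {a : Fin q → ℝ} (j : Fin q) : Wt I a 1 (a j) (X j : MvPolynomial (Fin q) K) := by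
  refine Submodule.mem_sup_left (Submodule.subset_span ?_)
  refine ⟨Pi.single j 1, 0, 1, isHomogeneous_one _ _, ?_, ?_, ?_⟩
  · simp
  · apply le_of_eq
    rw [Finset.sum_eq_single j]
    · simp
    · intro b _ hb
      simp [Pi.single_eq_of_ne hb]
    · intro h
      exact absurd (Finset.mem_univ j) h
  · rw [Finset.prod_eq_single j]
    · simp
    · intro b _ hb
      simp [Pi.single_eq_of_ne hb]
    · intro h
      exact absurd (Finset.mem_univ j) h

section

attribute [local instance] MvPolynomial.gradedAlgebra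

theorem comp_mul_X {K : Type} [Field K] {q : ℕ} (k : ℕ) (r : MvPolynomial (Fin q) K) (j : Fin q) :
    homogeneousComponent (1 + k) (X j * r) = X j * homogeneousComponent k r := by
  have h1 := DirectSum.coe_decompose_mul_add_of_left_mem (homogeneousSubmodule (Fin q) K)
      (a := X j) (b := r) (i := 1) (j := k) (isHomogeneous_X K j)
  rw [← decomposition.decompose'_apply, ← decomposition.decompose'_apply]
  exact h1

theorem comp_mem {K : Type} [Field K] {q : ℕ} {I : Ideal (MvPolynomial (Fin q) K)} (hI : HG I)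
    {f : MvPolynomial (Fin q) K} (hf : f ∈ I) (k : ℕ) : homogeneousComponent k f ∈ I := by
  have h1 := hI.isHomogeneous k hf
  rw [← decomposition.decompose'_apply]
  exact h1

/-- The variables are in the radical. -/
theorem mem_radical {K : Type} [Field K] {q : ℕ} {I : Ideal (MvPolynomial (Fin q) K)} (hI : HG I)
    (T : Finset (Fin q)) (hT : ∀ Q : Ideal (MvPolynomial (Fin q) K), Q.IsPrime → HG Q → I ≤ Q →
      (∀ j ∈ T, X j ∈ Q) → ∀ k, X k ∈ Q) (k : Fin q) :
    (X k : MvPolynomial (Fin q) K) ∈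
      (I ⊔ Ideal.span ((fun j => (X j : MvPolynomial (Fin q) K)) '' (↑T : Set (Fin q)))).radical := by
  have hJ : (I ⊔ Ideal.span ((fun j => (X j : MvPolynomial (Fin q) K)) ''
      (↑T : Set (Fin q)))).IsHomogeneous (homogeneousSubmodule (Fin q) K) := by
    refine hI.isHomogeneous.sup (Ideal.homogeneous_span _ _ ?_)
    rintro _ ⟨j, _, rfl⟩
    exact ⟨1, isHomogeneous_X K j⟩
  rw [hJ.radical_eq, Submodule.mem_sInf]
  rintro Q ⟨hQh, hQI, hQp⟩
  refine hT Q hQp (Pool.Agent.H726.Two.hg_of_isHomogeneous hQh) (le_sup_left.trans hQI) ?_ k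
  intro j hj
  exact hQI (Ideal.mem_sup_right (Ideal.subset_span ⟨j, hj, rfl⟩))

end

/-- All forms of a large degree are in the ideal. -/
theorem forms_mem {K : Type} [Field K] {q : ℕ} {J : Ideal (MvPolynomial (Fin q) K)} {p : ℕ}
    (hp : ∀ k : Fin q, (X k : MvPolynomial (Fin q) K) ^ p ∈ J) {n : ℕ} (hn : q * p + 1 ≤ n)
    {f : MvPolynomial (Fin q) K} (hf : f.IsHomogeneous n) : f ∈ J := by
  rw [f.as_sum]
  refine J.sum_mem fun m hm => ?_
  have hdeg : m.degree = n := by
    have h1 := hf (MvPolynomial.mem_support_iff.1 hm)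
    rw [← h1]
    simp [Finsupp.degree_eq_weight_one, Pi.one_def]
  obtain ⟨k, hk⟩ : ∃ k, p ≤ m k := by
    by_contra hcon
    push Not at hcon
    have h1 : m.degree ≤ ∑ k : Fin q, p := by
      rw [Finsupp.degree_eq_sum]
      exact Finset.sum_le_sum fun k _ => (hcon k).le
    rw [Finset.sum_const, Finset.card_univ, Fintype.card_fin, smul_eq_mul] at h1
    omega
  have h2 : monomial m (coeff m f) =
      X k ^ p * monomial (m - Finsupp.single k p) (coeff m f) := by
    rw [X_pow_eq_monomial, monomial_mul, one_mul]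
    congr 1
    rw [add_comm, tsub_add_cancel_of_le]
    rwa [Finsupp.single_le_iff]
  rw [h2]
  exact J.mul_mem_right _ (hp k)

/-- N5. If the variables in `T` have no common zero, all forms have a large weight. -/
theorem formal {K : Type} [Field K] {q : ℕ} {I : Ideal (MvPolynomial (Fin q) K)} (hI : HG I)
    (T : Finset (Fin q)) (hT : ∀ Q : Ideal (MvPolynomial (Fin q) K), Q.IsPrime → HG Q → I ≤ Q →
      (∀ j ∈ T, X j ∈ Q) → ∀ k, X k ∈ Q) :
    ∃ m0 : ℕ, ∀ (a : Fin q → ℝ) (g : ℝ), (∀ j, 0 ≤ a j) → 0 ≤ g → (∀ j ∈ T, g ≤ a j) →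
      ∀ (k : ℕ) (f : MvPolynomial (Fin q) K), f.IsHomogeneous k →
        Wt I a k (((k : ℝ) - m0) * g) f := by
  obtain ⟨J, hJ⟩ : ∃ J, J = I ⊔ Ideal.span ((fun j => (X j : MvPolynomial (Fin q) K)) ''
    (↑T : Set (Fin q))) := ⟨_, rfl⟩
  have hrad := mem_radical hI T hT
  rw [← hJ] at hrad
  choose e he using hrad
  obtain ⟨p, hp⟩ : ∃ p : ℕ, ∀ k, e k ≤ p := ⟨Finset.univ.sup e, fun k =>
    Finset.le_sup (f := e) (Finset.mem_univ k)⟩
  have hpow : ∀ k : Fin q, (X k : MvPolynomial (Fin q) K) ^ p ∈ J := by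
    intro k
    obtain ⟨c, hc⟩ := Nat.exists_eq_add_of_le (hp k)
    rw [hc, pow_add]
    exact J.mul_mem_right _ (he k)
  refine ⟨q * p + 1, fun a g ha hg haT k => ?_⟩
  induction k with
  | zero =>
    intro f hf
    refine Submodule.mem_sup_left (Submodule.subset_span ?_)
    refine ⟨fun _ => 0, 0, f, hf, by simp, ?_, by simp⟩
    have h1 : (0:ℝ) ≤ ((q * p + 1 : ℕ) : ℝ) * g := by positivity
    simp only [Nat.cast_zero, zero_mul, Finset.sum_const_zero]
    nlinarith
  | succ k ih =>
    intro f hf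
    by_cases hk : k + 1 ≤ q * p + 1
    · refine Submodule.mem_sup_left (Submodule.subset_span ?_)
      refine ⟨fun _ => 0, k + 1, f, hf, by simp, ?_, by simp⟩
      have h1 : ((k + 1 : ℕ) : ℝ) ≤ ((q * p + 1 : ℕ) : ℝ) := by exact_mod_cast hk
      simp only [Nat.cast_zero, zero_mul, Finset.sum_const_zero]
      exact mul_nonpos_of_nonpos_of_nonneg (by linarith) hg
    · push Not at hk
      have hfJ : f ∈ J := forms_mem hpow hk.le hf
      have hfc : homogeneousComponent (1 + k) f = f :=
        homogeneousComponent_eq_self (by rw [add_comm]; exact hf)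
      have claim : ∀ x ∈ J, Wt I a (k + 1) ((((k + 1 : ℕ) : ℝ) - ((q * p + 1 : ℕ) : ℝ)) * g)
          (homogeneousComponent (1 + k) x) := by
        intro x hx
        rw [hJ] at hx
        obtain ⟨i0, hi0, s, hs, rfl⟩ := Submodule.mem_sup.1 hx
        rw [map_add]
        refine Wt_add (Wt_mem (comp_mem hI hi0 _)) ?_
        have key : ∀ r, Wt I a (k + 1) ((((k + 1 : ℕ) : ℝ) - ((q * p + 1 : ℕ) : ℝ)) * g)
            (homogeneousComponent (1 + k) (r * s)) := by
          clear hx
          induction hs using Submodule.span_induction with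
          | mem x hx =>
            obtain ⟨j, hj, rfl⟩ := hx
            intro r
            have h1 := Wt_mul (Wt_X (I := I) (a := a) j)
              (ih _ (homogeneousComponent_isHomogeneous k r))
            rw [add_comm 1 k] at h1
            have h2 : homogeneousComponent (1 + k) (r * X j) = X j * homogeneousComponent k r := by
              rw [mul_comm, comp_mul_X]
            show Wt I a (k + 1) _ (homogeneousComponent (1 + k) (r * X j))
            rw [h2]
            refine Wt_mono ?_ h1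
            have h3 : g ≤ a j := haT j hj
            push_cast
            nlinarith
          | zero =>
            intro r
            rw [mul_zero, map_zero]
            exact Wt_zero
          | add x y _ _ hx hy =>
            intro r
            rw [mul_add, map_add]
            exact Wt_add (hx r) (hy r)
          | smul c x _ hx =>
            intro r
            rw [smul_eq_mul, ← mul_assoc]
            exact hx (r * c)
        have := key 1
        rwa [one_mul] at this
      have := claim f hfJ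
      rwa [hfc] at this

end Pool.Agent.H294.Noc5
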