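import Pool.Agent.H465.OC.StmB
import Pool.Graph.R_pool_sql_team_seeded_3997aac3.Q279.SC.All

/-!
# Project OC (MP_f38b71_nt), task B12: ordinary reduction for `p ≥ 5`
-/

set_option autoImplicit false

namespace Pool.Agent.H294.OCOrd5

open Polynomial Pool.Agent.Q279.SC Pool.Agent.H465.OC

noncomputable section

section rho
variable {R S : Type} [CommRing R] [CommRing S] (φ : R →+* S)

/-- change of coefficients for Laurent series -/
def rho : LaurentSeries R →+* LaurentSeries S where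
  toFun s := HahnSeries.map s φ
  map_one' := by
    ext n
    change φ ((1 : LaurentSeries R).coeff n) = (1 : LaurentSeries S).coeff n
    rw [HahnSeries.coeff_one, HahnSeries.coeff_one]
    split_ifs <;> simp
  map_mul' x y := by
    have h := HahnSeries.map_mul (Γ := ℤ) (φ : R →ₙ+* S) (x := x) (y := y)
    exact h
  map_zero' := by
    ext n
    change φ ((0 : LaurentSeries R).coeff n) = (0 : LaurentSeries S).coeff n
    simp
  map_add' x y := by
    ext n
    change φ ((x + y).coeff n) = (HahnSeries.map x φ + HahnSeries.map y φ).coeff n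
    rw [HahnSeries.coeff_add, HahnSeries.coeff_add, map_add]
    rfl

theorem rho_coeff (s : LaurentSeries R) (n : ℤ) : (rho φ s).coeff n = φ (s.coeff n) := rfl

theorem rho_ls (f : PowerSeries R) : rho φ (ls f) = ls (PowerSeries.map φ f) := by
  ext n
  rw [rho_coeff]
  have h1 : (ls f).coeff n = if n < 0 then 0 else PowerSeries.coeff n.natAbs f :=
    PowerSeries.coeff_coe f n
  have h2 : (ls (PowerSeries.map φ f)).coeff n =
      if n < 0 then 0 else PowerSeries.coeff n.natAbs (PowerSeries.map φ f) :=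
    PowerSeries.coeff_coe _ n
  rw [h1, h2]
  split_ifs
  · exact map_zero φ
  · rw [PowerSeries.coeff_map]

theorem inv_unique {B : Type} [CommRing B] {a b c : B} (h1 : a * b = 1) (h2 : a * c = 1) :
    b = c := by
  calc b = b * (a * c) := by rw [h2, mul_one]
    _ = (a * b) * c := by ring
    _ = c := by rw [h1, one_mul]

theorem rho_Di (h : LSBasic) : rho φ (Di R) = Di S := by
  have : Fact (Nat.Prime 2) := ⟨Nat.prime_two⟩
  obtain ⟨-, -, -, h1, -⟩ := h 2 R
  obtain ⟨-, -, -, h2, -⟩ := h 2 S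
  have h3 := congrArg (rho φ) h1
  rw [map_mul, map_one, rho_ls] at h3
  have h4 : PowerSeries.map φ (qD R) = qD S := map_map' φ zD
  rw [h4] at h3
  exact inv_unique h3 h2

theorem rho_jj (h : LSBasic) : rho φ (jj R) = jj S := by
  unfold jj
  rw [map_mul, map_pow, rho_ls, map_q4, rho_Di φ h]

theorem algMap (r : R) : algebraMap R (LaurentSeries R) r = HahnSeries.C r := by
  rw [HahnSeries.algebraMap_apply']
  simp

theorem rho_aeval (h : LSBasic) (A : R[X]) :
    rho φ (aeval (jj R) A) = aeval (jj S) (A.map φ) := by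
  rw [aeval_def, aeval_def, hom_eval₂, eval₂_map, rho_jj φ h]
  congr 1
  refine RingHom.ext fun r => ?_
  rw [RingHom.comp_apply, RingHom.comp_apply, algMap, algMap]
  exact HahnSeries.map_C (Γ := ℤ) r φ

end rho

section padic
variable {p : ℕ} [hp : Fact p.Prime]

theorem toZ (x : ℤ_[p]) : PadicInt.toZMod x = 0 ↔ (p : ℤ_[p]) ∣ x := by
  rw [← RingHom.mem_ker, PadicInt.ker_toZMod, PadicInt.maximalIdeal_eq_span_p,
    Ideal.mem_span_singleton]

theorem unit_iff (x : ℤ_[p]) (h : PadicInt.toZMod x ≠ 0) : IsUnit x := by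
  by_contra hx
  apply h
  rw [← RingHom.mem_ker, PadicInt.ker_toZMod]
  exact hx

/-- the kernel of the reduction -/
theorem rho_ker (s : LaurentSeries ℤ_[p]) (h : rho (PadicInt.toZMod (p := p)) s = 0) :
    (p : LaurentSeries ℤ_[p]) ∣ s := by
  have hp0 : (p : ℤ_[p]) ≠ 0 := by exact_mod_cast hp.out.ne_zero
  have h1 : ∀ n : ℤ, ∃ t : ℤ_[p], s.coeff n = (p : ℤ_[p]) * t := by
    intro n
    have h2 : (rho (PadicInt.toZMod (p := p)) s).coeff n = 0 := by
      rw [h]
      rfl
    rw [rho_coeff, toZ] at h2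
    exact h2
  choose t ht using h1
  have hsupp : Function.support t ⊆ s.support := by
    intro n hn
    rw [HahnSeries.mem_support, ht n]
    exact mul_ne_zero hp0 hn
  refine ⟨⟨t, s.isPWO_support.mono hsupp⟩, ?_⟩
  ext n
  rw [← nsmul_eq_mul, HahnSeries.coeff_nsmul, ht n, ← nsmul_eq_mul]
  rfl

theorem rho_dvd {s : LaurentSeries ℤ_[p]} (h : (p : LaurentSeries ℤ_[p]) ∣ s) :
    rho (PadicInt.toZMod (p := p)) s = 0 := by
  obtain ⟨t, rfl⟩ := h
  rw [map_mul, map_natCast]
  have : (p : LaurentSeries (ZMod p)) = 0 := by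
    have h1 : ((p : ZMod p) : ZMod p) = 0 := ZMod.natCast_self p
    have h2 := congrArg (HahnSeries.C (Γ := ℤ)) h1
    rw [map_natCast, map_zero] at h2
    exact h2
  rw [this, zero_mul]

/-- lift of a polynomial -/
theorem lift (g : (ZMod p)[X]) : ∃ G : ℤ_[p][X], G.map (PadicInt.toZMod (p := p)) = g :=
  Polynomial.map_surjective _ (ZMod.ringHom_surjective PadicInt.toZMod) g

theorem eval_lift (G : ℤ_[p][X]) (c : ℤ_[p]) :
    PadicInt.toZMod (G.eval c) = (G.map (PadicInt.toZMod (p := p))).eval (PadicInt.toZMod c) := by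
  rw [eval_map, eval₂_at_apply]

theorem rel_poly {B : Type} [CommRing B] [Algebra ℤ_[p] B] (j : B) (c : ℤ_[p]) (G : ℤ_[p][X]) :
    Rel j c (fun x => G.eval x) (aeval j G) := by
  intro M
  refine ⟨G, 1, by rw [eval_one]; exact isUnit_one, ?_, ?_⟩
  · rw [map_one, one_mul, sub_self]
    exact dvd_zero _
  · intro x _
    rw [eval_one, one_mul, sub_self]
    exact dvd_zero _

end padic

theorem at2_pow {R : Type} [CommRing R] (x y : R) (F : P2 R) (n : ℕ) :
    at2 x y (F ^ n) = at2 x y F ^ n := map_pow _ _ _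

theorem at2_mul {R : Type} [CommRing R] (x y : R) (F G : P2 R) :
    at2 x y (F * G) = at2 x y F * at2 x y G := map_mul _ _ _

theorem iso_mul {R : Type} [CommRing R] {F G : P2 R} {a b : ℕ} (hF : Iso F a) (hG : Iso G b) :
    Iso (F * G) (a + b) := MvPolynomial.IsWeightedHomogeneous.mul hF hG

theorem iso_pow {R : Type} [CommRing R] {F : P2 R} {a : ℕ} (hF : Iso F a) (n : ℕ) :
    Iso (F ^ n) (n * a) := by
  have h := MvPolynomial.IsWeightedHomogeneous.pow hF n
  rw [smul_eq_mul] at h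
  exact h

theorem iso_X0 {R : Type} [CommRing R] : Iso (MvPolynomial.X 0 : P2 R) 2 :=
  MvPolynomial.isWeightedHomogeneous_X R _ 0

theorem iso_X1 {R : Type} [CommRing R] : Iso (MvPolynomial.X 1 : P2 R) 3 :=
  MvPolynomial.isWeightedHomogeneous_X R _ 1

theorem cc_q4 {R : Type} [CommRing R] : PowerSeries.constantCoeff (q4 R) = 1 := by
  have h : PowerSeries.constantCoeff z4 = 1 := by simp [z4, zA]
  change (Int.castRingHom R) (PowerSeries.constantCoeff z4) = 1
  rw [h, map_one]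

theorem cc_q6 {R : Type} [CommRing R] : PowerSeries.constantCoeff (q6 R) = 1 := by
  have h : PowerSeries.constantCoeff z6 = 1 := by simp [z6, zB]
  change (Int.castRingHom R) (PowerSeries.constantCoeff z6) = 1
  rw [h, map_one]

/-- the constant coefficient of the `q`-expansion -/
theorem cc_ev {R : Type} [CommRing R] (F : P2 R) :
    PowerSeries.constantCoeff (ev R F) = at2 1 1 F := by
  have h : (PowerSeries.constantCoeff (R := R)).comp (ev R) = MvPolynomial.eval ![1, 1] := by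
    apply MvPolynomial.ringHom_ext
    · intro r
      simp [ev]
    · intro i
      fin_cases i
      · simp [ev, cc_q4]
      · simp [ev, cc_q6]
  exact RingHom.congr_fun h F

/-- Task B12. -/
theorem main : RelRing → RelDiv → LSBasic → LSInj → CountEq → Hs11 → IsoJ → Ord5 := by
  intro hRing hDiv hLS hInj hCount hHs hIso p hp h5 W hΔ h4 h6 hap c hc
  obtain ⟨hI, hNZ, hV⟩ := hInj p
  obtain ⟨T, ε, hT, hTe, -⟩ := Pool.Agent.Q237.SX.eis p h5
  -- reductions
  have hp0 : ((p : ℕ) : ZMod p) = 0 := ZMod.natCast_self p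
  obtain ⟨A, hA⟩ : ∃ A : P2 (ZMod p), A = redP p T := ⟨_, rfl⟩
  have hAi : Iso A ((p - 1) / 2) := by
    rw [hA]
    exact iso_map _ hT
  have hA1 : ev (ZMod p) A = 1 := by
    rw [hA]
    have h := map_ev (PadicInt.toZMod (p := p)) T
    rw [hTe, map_add, map_one, map_mul, map_natCast] at h
    have h0 : ((p : ℕ) : PowerSeries (ZMod p)) = 0 := by
      have := congrArg (PowerSeries.C (R := ZMod p)) hp0
      rw [map_natCast, map_zero] at this
      exact this
    rw [h0, zero_mul, add_zero] at h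
    exact h.symm
  obtain ⟨u, hu0, hu⟩ := Pool.Agent.Q279.SC.hs3' p h5 A hAi hA1
  have hA11 : at2 1 1 A = 1 := by
    rw [← cc_ev, hA1, map_one]
  have hat : ∀ x y : ZMod p, at2 x y (hs p) = u * at2 x y A := by
    intro x y
    rw [hu, at2_mul]
    congr 1
    exact MvPolynomial.eval_C u
  have hu2 : u ^ 2 = 1 := by
    have h := hHs p h5
    rw [hat, hA11, mul_one] at h
    exact h
  obtain ⟨x, hx⟩ : ∃ x : ZMod p, x = ((W.c₄ : ℤ) : ZMod p) := ⟨_, rfl⟩
  obtain ⟨y, hy⟩ : ∃ y : ZMod p, y = ((W.c₆ : ℤ) : ZMod p) := ⟨_, rfl⟩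
  obtain ⟨D, hD⟩ : ∃ D : ZMod p, D = ((W.Δ : ℤ) : ZMod p) := ⟨_, rfl⟩
  obtain ⟨a, ha⟩ : ∃ a : ZMod p, a = ((ap W p : ℤ) : ZMod p) := ⟨_, rfl⟩
  obtain ⟨α, hα⟩ : ∃ α : ZMod p, α = at2 x y A := ⟨_, rfl⟩
  have hint : ∀ z : ℤ, ¬ (p : ℤ) ∣ z → ((z : ℤ) : ZMod p) ≠ 0 := by
    intro z hz h
    exact hz ((ZMod.intCast_zmod_eq_zero_iff_dvd z p).1 h)
  have hx0 : x ≠ 0 := by rw [hx]; exact hint _ h4
  have hy0 : y ≠ 0 := by rw [hy]; exact hint _ h6
  have hD0 : D ≠ 0 := by rw [hD]; exact hint _ hΔ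
  have ha0 : a ≠ 0 := by rw [ha]; exact hint _ hap
  have haα : a = u * α := by
    rw [ha, hCount p h5 W hΔ, ← hx, ← hy, hat, ← hα]
  have hα0 : α ≠ 0 := by
    rintro h
    rw [h, mul_zero] at haα
    exact ha0 haα
  have ha2 : a ^ 2 = α ^ 2 := by
    rw [haα, mul_pow, hu2, one_mul]
  have hrel : 1728 * D = x ^ 3 - y ^ 2 := by
    have h := W.c_relation
    rw [hD, hx, hy]
    exact_mod_cast congrArg (Int.cast (R := ZMod p)) h
  -- the point
  obtain ⟨cb, hcb⟩ : ∃ cb : ZMod p, cb = PadicInt.toZMod c := ⟨_, rfl⟩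
  have hcD : cb = x ^ 3 / D := by
    rw [eq_div_iff hD0, hcb, hD, hx]
    have h := congrArg (PadicInt.toZMod (p := p)) hc
    rw [map_mul, map_pow, map_intCast, map_intCast] at h
    exact h
  have h6F : (6 : ZMod p) ≠ 0 := by
    have h := hint 6 (by
      intro h
      have h1 : p ∣ 6 := by exact_mod_cast h
      have h2 : p ∣ 2 * 3 := h1
      rcases (Nat.Prime.dvd_mul hp.out).1 h2 with h3 | h3
      · have := Nat.le_of_dvd (by norm_num) h3
        omega
      · have := Nat.le_of_dvd (by norm_num) h3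
        omega)
    exact_mod_cast h
  have hfer : ∀ z : ZMod p, z ≠ 0 → z ^ (p - 1) = 1 := fun z hz => ZMod.pow_card_sub_one_eq_one hz
  -- p - 1 = 2 m
  obtain ⟨m, hm⟩ : ∃ m, p - 1 = 2 * m := by
    have h1 : p % 2 = 1 := by
      rcases Nat.Prime.eq_two_or_odd hp.out with h | h
      · omega
      · exact h
    exact ⟨(p - 1) / 2, by omega⟩
  have hm2 : (p - 1) / 2 = m := by omega
  rw [hm2] at hAi
  have hevA : ∀ n : ℕ, ev (ZMod p) (A ^ n) = 1 := by
    intro n
    rw [map_pow, hA1, one_pow]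
  have hls1 : ls (1 : PowerSeries (ZMod p)) = 1 := map_one _
  refine ⟨?_, ?_⟩
  · -- ordinary
    intro P hP
    obtain ⟨g, hg1, hg2⟩ := hIso (ZMod p) h6F (p - 1) (A ^ 12) (by
      have h := iso_pow hAi 12
      have e : 12 * m = 6 * (p - 1) := by omega
      rw [e] at h
      exact h)
    rw [hevA, hls1] at hg1
    obtain ⟨G, hG⟩ := lift g
    have h1 := rho_dvd hP
    rw [map_sub, map_mul, map_pow, map_one, rho_aeval _ hLS, rho_ls,
      show PowerSeries.map (PadicInt.toZMod (p := p)) (qD ℤ_[p]) = qD (ZMod p) from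
        map_map' _ zD, sub_eq_zero] at h1
    have h2 : aeval (jj (ZMod p)) (P.map (PadicInt.toZMod (p := p))) = aeval (jj (ZMod p)) g := by
      have h3 : ls (qD (ZMod p)) ^ (p - 1) * aeval (jj (ZMod p)) (P.map PadicInt.toZMod) = 1 := by
        rw [mul_comm]
        exact h1
      exact inv_unique h3 hg1.symm
    have h3 : (p : LaurentSeries ℤ_[p]) ^ 1 ∣ aeval (jj ℤ_[p]) (P - G) := by
      rw [pow_one]
      apply rho_ker
      rw [rho_aeval _ hLS, Polynomial.map_sub, map_sub, h2, hG, sub_self]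
    obtain ⟨Q, hQ⟩ := hI 1 (P - G) h3
    apply unit_iff
    have h4 : PadicInt.toZMod (P.eval c) = g.eval cb := by
      have h5 : P = G + (p : ℤ_[p][X]) ^ 1 * Q := by rw [← hQ]; ring
      rw [h5, eval_add, map_add, eval_lift, hG, ← hcb, pow_one, eval_mul, map_mul,
        eval_natCast, map_natCast, hp0, zero_mul, add_zero]
    rw [h4]
    have h5 := hg2 x y D hrel hD0
    rw [at2_pow, ← hα, ← hcD, hfer D hD0, one_mul] at h5
    rw [← h5]
    exact pow_ne_zero 12 hα0
  · -- the values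
    intro R4 R6 hR4 hR6
    obtain ⟨g1, hg1, hg1'⟩ := hIso (ZMod p) h6F m (A ^ 6) (iso_pow hAi 6)
    rw [hevA, hls1] at hg1
    have h1 := hg1' x y D hrel hD0
    rw [at2_pow, ← hα, ← hcD] at h1
    obtain ⟨G1, hG1⟩ := lift g1
    -- general step
    have step : ∀ (E : P2 (ZMod p)) (w : ℕ) (e : PowerSeries ℤ_[p]) (Re : ℤ_[p] → ℤ_[p])
        (k : ℕ), Iso (E ^ (p - 1) * A ^ k) (6 * m) →
        ls (ev (ZMod p) E) = ls (PowerSeries.map (PadicInt.toZMod (p := p)) e) →
        at2 x y E ≠ 0 →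
        ls (e) * ls (PowerSeries.invOfUnit e 1) = 1 →
        Rel (jj ℤ_[p]) c Re (VV p ℤ_[p] (ls e) * ls (PowerSeries.invOfUnit e 1)) →
        α ^ 6 * PadicInt.toZMod (Re c) = α ^ k := by
      intro E w e Re k hEi hEe hE0 hinv hRe
      obtain ⟨g, hg, hg'⟩ := hIso (ZMod p) h6F m _ hEi
      rw [map_mul, hevA, mul_one, map_pow] at hg
      have hgp := hg' x y D hrel hD0
      rw [at2_mul, at2_pow, hfer _ hE0, one_mul, at2_pow, ← hα, ← hcD] at hgp
      obtain ⟨G, hG⟩ := lift g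
      obtain ⟨s, hs⟩ : ∃ s, s = VV p ℤ_[p] (ls e) * ls (PowerSeries.invOfUnit e 1) := ⟨_, rfl⟩
      rw [← hs] at hRe
      -- the reduction of s
      have hred : rho (PadicInt.toZMod (p := p)) s = ls (ev (ZMod p) E) ^ (p - 1) := by
        have k1 := rho_dvd (hV (ls e))
        rw [map_sub, map_pow, sub_eq_zero] at k1
        have k2 := congrArg (rho (PadicInt.toZMod (p := p))) hinv
        rw [map_mul, map_one] at k2
        have k3 : ∀ z : LaurentSeries (ZMod p), z ^ p = z ^ (p - 1) * z := by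
          intro z
          rw [← pow_succ, Nat.sub_add_cancel hp.out.one_lt.le]
        rw [hs, map_mul, k1, hEe, rho_ls]
        rw [rho_ls] at k2
        rw [k3, mul_assoc, k2, mul_one]
      have hdvd : (p : LaurentSeries ℤ_[p]) ∣ aeval (jj ℤ_[p]) G1 * s - aeval (jj ℤ_[p]) G := by
        apply rho_ker
        rw [map_sub, map_mul, rho_aeval _ hLS, rho_aeval _ hLS, hG1, hG, hred]
        have k4 : ls (ev (ZMod p) E ^ (p - 1)) = ls (ev (ZMod p) E) ^ (p - 1) := map_pow _ _ _
        rw [← k4, hg, sub_eq_zero]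
        calc aeval (jj (ZMod p)) g1 * (ls (qD (ZMod p)) ^ m * aeval (jj (ZMod p)) g)
            = (ls (qD (ZMod p)) ^ m * aeval (jj (ZMod p)) g1) * aeval (jj (ZMod p)) g := by ring
          _ = aeval (jj (ZMod p)) g := by rw [← hg1, one_mul]
      obtain ⟨r, hr⟩ := hdvd
      have hF : Rel (jj ℤ_[p]) c (fun x => G1.eval x * Re x - G.eval x)
          ((p : LaurentSeries ℤ_[p]) ^ 1 * r) := by
        rw [pow_one, ← hr]
        have k5 := ((hRing p _ (jj ℤ_[p]) c).2.2 _ _ _ _ (rel_poly (jj ℤ_[p]) c G1) hRe).2.1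
        exact ((hRing p _ (jj ℤ_[p]) c).2.2 _ _ _ _ k5 (rel_poly (jj ℤ_[p]) c G)).2.2
      obtain ⟨F', -, hF'⟩ := (hDiv p _ (jj ℤ_[p]) c hI hNZ).1 _ _ _ hF
      have k6 := hF' c (by rw [sub_self]; exact dvd_zero _)
      have k7 := congrArg (PadicInt.toZMod (p := p)) k6
      rw [map_sub, map_mul, eval_lift, eval_lift, hG1, hG, ← hcb, pow_one, map_mul,
        map_natCast, hp0, zero_mul, sub_eq_zero] at k7
      calc α ^ 6 * PadicInt.toZMod (Re c) = D ^ m * (g1.eval cb * PadicInt.toZMod (Re c)) := by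
            rw [h1]; ring
        _ = D ^ m * g.eval cb := by rw [k7]
        _ = α ^ k := hgp.symm
    obtain ⟨-, -, -, -, hi4, hi6, -⟩ := hLS p ℤ_[p]
    have v4 := step (MvPolynomial.X 0) 0 (q4 ℤ_[p]) R4 2 (by
      have h := iso_mul (iso_pow iso_X0 (p - 1)) (iso_pow hAi 2)
      have e : (p - 1) * 2 + 2 * m = 6 * m := by omega
      rw [e] at h
      exact h) (by rw [map_q4]; congr 1; simp [ev]) (by
        change MvPolynomial.eval ![x, y] (MvPolynomial.X 0) ≠ 0
        rw [MvPolynomial.eval_X]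
        exact hx0) hi4 hR4
    have v6 := step (MvPolynomial.X 1) 0 (q6 ℤ_[p]) R6 0 (by
      have h := iso_mul (iso_pow iso_X1 (p - 1)) (iso_pow hAi 0)
      have e : (p - 1) * 3 + 0 * m = 6 * m := by omega
      rw [e] at h
      exact h) (by rw [map_q6]; congr 1; simp [ev]) (by
        change MvPolynomial.eval ![x, y] (MvPolynomial.X 1) ≠ 0
        rw [MvPolynomial.eval_X]
        exact hy0) hi6 hR6
    constructor
    · rw [← toZ, map_sub, map_mul, map_pow, map_intCast, map_one, ← ha]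
      have e1 : a ^ 4 = α ^ 4 := by
        calc a ^ 4 = (a ^ 2) ^ 2 := by ring
          _ = α ^ 4 := by rw [ha2]; ring
      have e2 : α ^ 2 * (PadicInt.toZMod (R4 c) * α ^ 4) = α ^ 2 * 1 := by
        calc α ^ 2 * (PadicInt.toZMod (R4 c) * α ^ 4) = α ^ 6 * PadicInt.toZMod (R4 c) := by ring
          _ = α ^ 2 := v4
          _ = α ^ 2 * 1 := (mul_one _).symm
      rw [e1, mul_left_cancel₀ (pow_ne_zero 2 hα0) e2, sub_self]
    · rw [← toZ, map_sub, map_mul, map_pow, map_intCast, map_one, ← ha]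
      have e1 : a ^ 6 = α ^ 6 := by
        calc a ^ 6 = (a ^ 2) ^ 3 := by ring
          _ = α ^ 6 := by rw [ha2]; ring
      rw [e1, mul_comm, v6, pow_zero, sub_self]

end

end Pool.Agent.H294.OCOrd5
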