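import Pool.Agent.H468.QF.Stm

/-!
# 17a2 over quadratic fields (helper468), part N17C, by helper294
-/

set_option autoImplicit false

namespace Pool.Agent.H294.QF

open WithZero
open Pool.Agent.H743.X17 (LS)

/-- integers have `w ≤ 1` -/
theorem w_int_le {K : Type} [Field K] (w : Valuation K (WithZero (Multiplicative ℤ))) (n : ℕ) :
    w (n : K) ≤ 1 := by
  induction n with
  | zero => simp
  | succ n ih =>
    rw [Nat.cast_succ]
    exact (w.map_add _ _).trans (max_le ih (by rw [map_one]))

theorem w_two {K : Type} [Field K] (w : Valuation K (WithZero (Multiplicative ℤ)))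
    (h : w (17 : K) < 1) : w (2 : K) = 1 := by
  refine le_antisymm (by exact_mod_cast w_int_le w 2) ?_
  by_contra hcon
  rw [not_le] at hcon
  have h8 : w (8 : K) ≤ 1 := by exact_mod_cast w_int_le w 8
  have h1 : w (8 * 2 : K) < 1 := by
    rw [map_mul]
    exact (mul_le_mul' h8 le_rfl).trans_lt (by rwa [one_mul])
  have h2 : w (17 - 8 * 2 : K) < 1 := (w.map_sub _ _).trans_lt (max_lt h h1)
  have h3 : (17 - 8 * 2 : K) = 1 := by norm_num
  rw [h3, map_one] at h2
  exact lt_irrefl _ h2

/-- N17C: any place over `17` -/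
theorem t_N17C : Pool.Agent.H468.QF.S_N17C := by
  intro K _ w h17 u v hu hLS
  obtain ⟨x, y, hy, hxy, ⟨a, ha⟩, -⟩ := hLS
  have h2 := w_two w h17
  have hxy' : y ^ 2 = x * (x + 1) * (x - 16) := by
    rw [hxy]
    push_cast
    ring
  have hx : x ≠ 0 := by
    rintro rfl
    apply hy
    have : y ^ 2 = 0 := by rw [hxy']; ring
    exact pow_eq_zero_iff (two_ne_zero) |>.1 this
  have hx1 : x + 1 ≠ 0 := by
    intro h0
    apply hy
    have : y ^ 2 = 0 := by rw [hxy', h0]; ring
    exact pow_eq_zero_iff (two_ne_zero) |>.1 this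
  have ha0 : a ≠ 0 := by
    rintro rfl
    rw [mul_zero] at ha
    rcases mul_eq_zero.1 ha with h | h
    · exact hx h
    · exact hu h
  by_cases hc : w (x + 1) < 1
  · have h20 : (2 : K) ≠ 0 := by
      intro h0
      rw [h0, map_zero] at h2
      exact zero_ne_one h2
    have h16 : (16 : K) ≠ 0 := by
      have : (16 : K) = 2 ^ 4 := by norm_num
      rw [this]
      exact pow_ne_zero _ h20
    have h4 : (4 : K) ≠ 0 := by
      have : (4 : K) = 2 ^ 2 := by norm_num
      rw [this]
      exact pow_ne_zero _ h20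
    have hw16 : w (16 : K) = 1 := by
      have : (16 : K) = 2 ^ 4 := by norm_num
      rw [this, map_pow, h2, one_pow]
    refine ⟨x / (4 * a), x / 16 - 1, ?_, ?_⟩
    · have e2 : x / 16 - 1 = (x + 1 - 17) / 16 := by
        field_simp
        ring
      rw [e2, map_div₀, hw16, div_one]
      exact (w.map_sub _ _).trans_lt (max_lt hc h17)
    · have e1 : (u : K) * (x / (4 * a)) ^ 2 = (x * u) * x / (16 * (a * a)) := by
        field_simp
        ring
      rw [e1, ha]
      field_simp
      ring
  · rw [not_lt] at hc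
    refine ⟨y / ((x + 1) * a), -(17 / (x + 1)), ?_, ?_⟩
    · rw [Valuation.map_neg, map_div₀]
      have hpos : 0 < w (x + 1) := lt_of_lt_of_le zero_lt_one hc
      rw [div_lt_iff₀ hpos, one_mul]
      exact h17.trans_le hc
    · have e1 : (u : K) * (y / ((x + 1) * a)) ^ 2 = (x * u) * y ^ 2 / (x * (x + 1) ^ 2 * (a * a)) := by
        field_simp
      rw [e1, ha, hxy']
      field_simp
      ring

end Pool.Agent.H294.QF
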